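import Pool.Agent.L7h68.UN.Sta

set_option autoImplicit false

/-!
# Project UN: construction of the star configuration (part STA), assembly
-/

namespace Pool.Agent.L7h68.UN

open Set Filter Function Pool.Agent.L7h71.UN

section

variable {r : ℕ} {K V ι κ : Type} [Finite K] {M : St r K V}
  {E : Ultrafilter (ι ⊕ ℕ × κ → V)} {W : St r K (V ⊕ ℕ × (ι ⊕ ℕ × κ))}

theorem inv_of (h : Evals M E W) [Nonempty (ι ⊕ ℕ × κ → V)]
    (hf : ∀ (π : Equiv.Perm ℕ) (z : Fin r → V ⊕ (ι ⊕ ℕ × κ)),
      Ext M E (Sum.map id (Sum.map id fun u => (π u.1, u.2)) ∘ z) = Ext M E z)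
    (σ : Equiv.Perm ℕ) (π : ℕ → Equiv.Perm ℕ) (z : Fin r → V ⊕ ℕ × (ι ⊕ ℕ × κ)) :
    W (Sum.map id (sact σ π) ∘ z) = W z := by
  classical
  rw [← h.blocks (fun s => Sum.map id fun u => (π s u.1, u.2)) (fun s z => hf (π s) z) (BlN z) z]
  refine Eq.trans ?_ (h.rename _ σ)
  congr 1
  funext i
  simp only [comp_apply]
  rcases hi : z i with a | w
  · rfl
  · simp only [Sum.map_inr]
    rw [lpT_mem (mem_blN hi)]
    rfl

theorem dec_of (h : Evals M E W) [Nonempty (ι ⊕ ℕ × κ → V)]
    (hdec : ∀ (z : Fin r → V ⊕ (ι ⊕ ℕ × κ)) (L : Set ℕ),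
      {v | ∃ i, z i = Sum.inr v}.ncard < Nat.card ι + Nat.card κ →
      Ext M E z = lim E fun y => lim E fun y' => M (sub z (mix L y y')))
    (z : Fin r → V ⊕ ℕ × (ι ⊕ ℕ × κ)) (s s' : ℕ) (L : Set ℕ) (hs : s ≠ s')
    (hz : ∀ i w, z i = Sum.inr w → w.1 ≠ s')
    (hn : Set.ncard {w : ℕ × (ι ⊕ ℕ × κ) | w.1 = s ∧ ∃ i, z i = Sum.inr w} <
      Nat.card ι + Nat.card κ) :
    W (Sum.map id (smv s s' L) ∘ z) = W z := by
  classical
  obtain ⟨x00⟩ : Nonempty (ι ⊕ ℕ × κ → V) := inferInstance
  obtain ⟨l, hl, hl', hlz⟩ := exists_list z {s, s'}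
  have hsl : s ∉ l := hl' s (Finset.mem_insert_self _ _)
  have hsl' : s' ∉ l := hl' s' (Finset.mem_insert_of_mem (Finset.mem_singleton_self _))
  have hl2 : (l ++ [s]).Nodup :=
    List.Nodup.append hl (List.nodup_singleton _) (by
      rw [List.disjoint_singleton]; exact hsl)
  have hl3 : ((l ++ [s]) ++ [s']).Nodup :=
    List.Nodup.append hl2 (List.nodup_singleton _) (by
      rw [List.disjoint_singleton, List.mem_append, not_or, List.mem_singleton]
      exact ⟨hsl', hs.symm⟩)
  have hz2 : ∀ i w, z i = Sum.inr w → w.1 ∈ l ++ [s] := fun i w hw => by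
    rw [List.mem_append, List.mem_singleton]
    by_cases h3 : w.1 = s
    · exact Or.inr h3
    · refine Or.inl (hlz i w hw ?_)
      rw [Finset.mem_insert, Finset.mem_singleton, not_or]
      exact ⟨h3, hz i w hw⟩
  have hz3 : ∀ i w, (Sum.map id (smv s s' L) ∘ z) i = Sum.inr w →
      w.1 ∈ (l ++ [s]) ++ [s'] := fun i w hw => by
    simp only [comp_apply] at hw
    rcases h4 : z i with a | u
    · rw [h4] at hw; simp at hw
    · rw [h4] at hw
      simp only [Sum.map_inr, Sum.inr.injEq] at hw
      have h6 := hz2 i u h4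
      rw [← hw]
      rcases u with ⟨t, i' | ⟨n, k⟩⟩
      · simp only [smv]
        exact List.mem_append_left _ h6
      · simp only [smv]
        split_ifs
        · simp
        · exact List.mem_append_left _ h6
  rw [h.inner z l s hl2 hz2 fun _ => x00, h.inner _ (l ++ [s]) s' hl3 hz3 fun _ => x00, itl_append]
  refine itl_congr _ _ _ _ fun x _ => ?_
  rw [itl_cons, hdec (zx s x z) L]
  · refine lim_congr (Eventually.of_forall fun y => ?_)
    rw [itl_nil, ext_def]
    refine lim_congr (Eventually.of_forall fun y' => ?_)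
    congr 1
    funext i
    simp only [sub, zx, comp_apply]
    rcases hi : z i with a | ⟨t, v⟩
    · rfl
    · have h7 := hz i _ hi
      simp only at h7
      by_cases h8 : t = s
      · subst h8
        rcases v with i' | ⟨n, k⟩
        · simp [smv, mix, h7]
        · by_cases h9 : n ∈ L
          · simp [smv, mix, h9]
          · simp [smv, mix, h9, h7]
      · rcases v with i' | ⟨n, k⟩
        · simp [smv, h7, h8]
        · simp [smv, h7, h8]
  · refine lt_of_le_of_lt ?_ hn
    have : {w : ℕ × (ι ⊕ ℕ × κ) | w.1 = s ∧ ∃ i, z i = Sum.inr w} =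
        (fun v => (s, v)) '' {v | ∃ i, zx s x z i = Sum.inr v} := by
      ext ⟨t, v⟩
      constructor
      · rintro ⟨h5, i, hi⟩
        simp only at h5
        subst h5
        refine ⟨v, ⟨i, ?_⟩, rfl⟩
        simp only [zx, hi, Sum.elim_inr, if_true]
      · rintro ⟨v', ⟨i, hi⟩, hv⟩
        simp only [Prod.mk.injEq] at hv
        obtain ⟨rfl, rfl⟩ := hv
        refine ⟨rfl, i, ?_⟩
        simp only [zx] at hi
        rcases h6 : z i with a | w
        · rw [h6] at hi; simp at hi
        · rw [h6] at hi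
          simp only [Sum.elim_inr] at hi
          split_ifs at hi with h7
          simp only [Sum.inr.injEq] at hi
          rw [← h7, ← hi]
    rw [this, Set.ncard_image_of_injective _ (Prod.mk_right_injective s)]

end

theorem s_STA (h1 : S_PRO) (h2 : S_SYM) : S_STA := by
  classical
  intro r K _ hcomm n hstar V _ _ M hM J ι κ _ _ hn U g θ hg hθ τ
  subst hn
  have hx : ∀ j, ∃ Q : Ultrafilter ((Σ _ : ℕ, κ) → V), IsProd (θ j) Q := fun j =>
    exists_prod h1 (θ j)
  choose Θ hP using hx
  have hΘ : ∀ j, Free (Θ j) := fun j => (hP j).1 (hθ j)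
  have hpm : ∀ j, Perms M (θ j) := fun j =>
    (h2 r K hcomm V M hM ℕ (fun _ => κ) (fun _ => θ j) fun _ => hθ j).1
  have hE : Free (EE U g Θ) := free_EE hg hΘ
  obtain ⟨-, P, hPf, hPev⟩ :=
    h2 r K hcomm V M hM ℕ (fun _ => ι ⊕ ℕ × κ) (fun _ => EE U g Θ) fun _ => hE
  let W : St r K (V ⊕ ℕ × (ι ⊕ ℕ × κ)) := fun z =>
    Ext M P fun i => Sum.map id (fun w => ⟨w.1, w.2⟩) (z i)
  obtain ⟨x00⟩ : Nonempty (ι ⊕ ℕ × κ → V) := inferInstance
  have hW : Evals M (EE U g Θ) W := by
    intro z l hl hz x0
    have h3 := hPev (fun i => Sum.map id (fun w => ⟨w.1, w.2⟩) (z i)) l hl (fun i w hw => ?_) x0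
    · refine h3.trans ?_
      refine itl_congr _ _ _ _ fun x _ => ?_
      congr 1
      funext i
      simp only [subs, sN]
      rcases z i with a | w <;> rfl
    · rcases h4 : z i with a | u
      · simp only [h4] at hw; simp at hw
      · simp only [h4, Sum.map_inr, Sum.inr.injEq] at hw
        rw [← hw]
        exact hz i u h4
  have hloc : Loc M W := by
    refine (loc_ext hPf).trans fun F => ⟨Sum.map id (fun w => ⟨w.1, w.2⟩), ?_, fun x _ => rfl⟩
    intro a _ b _ hab
    rcases a with a | a <;> rcases b with b | b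
    · simpa using hab
    · simp at hab
    · simp at hab
    · simp only [Sum.map_inr, Sum.inr.injEq] at hab
      have e1 : a.1 = b.1 := congrArg Sigma.fst hab
      have e2 : a.2 = b.2 := eq_of_heq (Sigma.mk.inj hab).2
      rw [Prod.ext e1 e2]
  have hone : ∀ (j : J) (ρ : Fin r → V ⊕ κ) (l : ℕ),
      Ext M (Θ j) (Sum.map id (fun x => ⟨l, x⟩) ∘ ρ) = Ext M (θ j) ρ :=
    fun j ρ l => (hP j).one ρ l
  -- the term with the centre `c`
  have hfin : ∀ (c : ι → V) (k : J),
      Ext M (θ k) (fun i => Sum.elim Sum.inl (Sum.elim (fun i' => Sum.inl (c i')) Sum.inr) (τ i)) =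
      lim (θ k) fun y => M (sub τ (Sum.elim c y)) := fun c k => by
    rw [ext_def]
    refine lim_congr (Eventually.of_forall fun y => ?_)
    congr 1
    funext i
    simp only [sub]
    rcases τ i with a | (i' | k') <;> rfl
  refine ⟨W, hloc, ⟨inv_of hW fun π z => perm_EE hP hpm z π,
    dec_of hW fun z L hz => dec_EE hstar hM hg hΘ hP hpm z L hz, ?_, ?_⟩⟩
  · intro s l
    rw [hW.inner _ [] s (by simp) (fun i w hw => ?_) fun _ => x00, itl_nil, ext_EE]
    · refine lim_congr (Eventually.of_forall fun j => ?_)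
      rw [← hfin (g j) j, ← hone j _ l]
      congr 1
      funext i
      simp only [zT, zx, comp_apply]
      rcases τ i with a | (i' | k')
      · rfl
      · simp
      · simp
    · simp only [comp_apply] at hw
      rcases h4 : τ i with a | (i' | k')
      · rw [h4] at hw; simp at hw
      · rw [h4] at hw
        simp only [Sum.map_inr, Sum.elim_inl, Sum.inr.injEq] at hw
        rw [← hw]; simp
      · rw [h4] at hw
        simp only [Sum.map_inr, Sum.elim_inr, Sum.inr.injEq] at hw
        rw [← hw]; simp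
  · intro s t l hst
    rw [hW.inner _ [s] t (by simpa using hst) (fun i w hw => ?_) fun _ => x00, itl_cons, lim_EE]
    · refine lim_congr (Eventually.of_forall fun j => ?_)
      refine Eq.trans (lim_congr (Eventually.of_forall fun w => ?_))
        (lim_const (Θ j) (lim U fun k => lim (θ k) fun y => M (sub τ (Sum.elim (g j) y))))
      rw [itl_nil, ext_EE]
      refine lim_congr (Eventually.of_forall fun k => ?_)
      rw [← hfin (g j) k, ← hone k _ l]
      congr 1
      funext i
      simp only [zT, zx, comp_apply]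
      rcases τ i with a | (i' | k')
      · rfl
      · simp [hst, Phi]
      · simp
    · simp only [comp_apply] at hw
      rcases h4 : τ i with a | (i' | k')
      · rw [h4] at hw; simp at hw
      · rw [h4] at hw
        simp only [Sum.map_inr, Sum.elim_inl, Sum.inr.injEq] at hw
        rw [← hw]; simp
      · rw [h4] at hw
        simp only [Sum.map_inr, Sum.elim_inr, Sum.inr.injEq] at hw
        rw [← hw]; simp

end Pool.Agent.L7h68.UN
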