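import Pool.Agent.L7h71.UN.Stm

set_option autoImplicit false

/-!
# Project UN: lemmas about iterated limits
-/

namespace Pool.Agent.L7h68.UN

open Set Filter Function Pool.Agent.L7h71.UN

section

variable {K V S : Type} [Finite K] {ι : S → Type} {p : ∀ s, Ultrafilter (ι s → V)}

theorem itl_nil (f : (∀ s, ι s → V) → K) (x : ∀ s, ι s → V) : itl p f [] x = f x := rfl

open Classical in
theorem itl_cons (f : (∀ s, ι s → V) → K) (s : S) (l : List S) (x : ∀ s, ι s → V) :
    itl p f (s :: l) x = lim (p s) fun y => itl p f l (Function.update x s y) := rfl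

theorem itl_append (f : (∀ s, ι s → V) → K) (l l' : List S) (x : ∀ s, ι s → V) :
    itl p f (l ++ l') x = itl p (fun x => itl p f l' x) l x := by
  induction l generalizing x with
  | nil => rfl
  | cons s l ih =>
    rw [List.cons_append, itl_cons, itl_cons]
    exact lim_congr (Eventually.of_forall fun y => ih _)

theorem itl_congr (f g : (∀ s, ι s → V) → K) (l : List S) (x : ∀ s, ι s → V)
    (h : ∀ x' : ∀ s, ι s → V, (∀ s, s ∉ l → x' s = x s) → f x' = g x') :
    itl p f l x = itl p g l x := by
  classical
  induction l generalizing x with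
  | nil => exact h x fun s _ => rfl
  | cons s l ih =>
    rw [itl_cons, itl_cons]
    refine lim_congr (Eventually.of_forall fun y => ih _ fun x' hx' => h x' fun t ht => ?_)
    rw [List.mem_cons, not_or] at ht
    rw [hx' t ht.2, Function.update_of_ne ht.1]

end

theorem itl_rename {K V S X : Type} [Finite K] (q : Ultrafilter (X → V)) (F : (S → X → V) → K)
    {σ : S → S} (hσ : Injective σ) (l : List S) (x : S → X → V) :
    itl (ι := fun _ : S => X) (fun _ => q) (fun x => F (x ∘ σ)) (l.map σ) x =
      itl (ι := fun _ : S => X) (fun _ => q) F l (x ∘ σ) := by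
  classical
  induction l generalizing x with
  | nil => rfl
  | cons s l ih =>
    rw [List.map_cons, itl_cons, itl_cons]
    refine lim_congr (Eventually.of_forall fun y => ?_)
    rw [ih]
    congr 1
    exact Function.update_comp_eq_of_injective x hσ s y

/-- The blocks of a term. -/
def Bl {r : ℕ} {V : Type} {ι : ℕ → Type} (z : Fin r → V ⊕ (Σ s, ι s)) : Finset ℕ :=
  Finset.univ.image fun i => Sum.elim (fun _ => 0) (fun w => w.1) (z i)

theorem mem_bl {r : ℕ} {V : Type} {ι : ℕ → Type} {z : Fin r → V ⊕ (Σ s, ι s)} {i : Fin r}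
    {w : Σ s, ι s} (h : z i = Sum.inr w) : w.1 ∈ Bl z := by
  refine Finset.mem_image.2 ⟨i, Finset.mem_univ _, ?_⟩
  rw [h]
  rfl

end Pool.Agent.L7h68.UN
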