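import Pool.Agent.L7h68.UN.Itl

set_option autoImplicit false

/-!
# Project UN: products of infinitely many copies of a type
-/

namespace Pool.Agent.L7h68.UN

open Set Filter Function Pool.Agent.L7h71.UN

variable {V X : Type}

theorem ext_def {r : ℕ} {K ι : Type} [Finite K] (M : St r K V) (p : Ultrafilter (ι → V))
    (z : Fin r → V ⊕ ι) : Ext M p z = lim p fun x => M (sub z x) := rfl

/-- `Q` is a product of copies of `q`. -/
def IsProd (q : Ultrafilter (X → V)) (Q : Ultrafilter ((Σ _ : ℕ, X) → V)) : Prop :=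
  (Free q → Free Q) ∧ ∀ (r : ℕ) (K : Type) [Finite K] (M : St r K V)
    (z : Fin r → V ⊕ (Σ _ : ℕ, X)) (l : List ℕ), l.Pairwise (· < ·) →
    (∀ i w, z i = Sum.inr w → w.1 ∈ l) → ∀ x0 : ℕ → X → V,
    Ext M Q z = itl (fun _ => q) (fun x => M (subs z x)) l x0

theorem exists_prod (h1 : S_PRO) [Nonempty V] (q : Ultrafilter (X → V)) :
    ∃ Q : Ultrafilter ((Σ _ : ℕ, X) → V), IsProd q Q := by
  obtain ⟨P, h, h'⟩ := h1 V ℕ (fun _ => X) (fun _ => q)
  exact ⟨P, fun hq => h fun _ => hq, h'⟩

/-- The limits along `q` can be permuted. -/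
def Perms {r : ℕ} {K : Type} [Finite K] (M : St r K V) (q : Ultrafilter (X → V)) : Prop :=
  ∀ (z : Fin r → V ⊕ (Σ _ : ℕ, X)) (l l' : List ℕ), l.Perm l' → l.Nodup →
      ∀ x0 : ℕ → X → V, itl (fun _ => q) (fun x => M (subs z x)) l x0 =
        itl (fun _ => q) (fun x => M (subs z x)) l' x0

section

variable {r : ℕ} {K : Type} [Finite K] {M : St r K V} {q : Ultrafilter (X → V)}
  {Q : Ultrafilter ((Σ _ : ℕ, X) → V)}

theorem IsProd.ev (h : IsProd q Q) (hM : Perms M q) (z : Fin r → V ⊕ (Σ _ : ℕ, X)) (l : List ℕ)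
    (hl : l.Nodup) (hz : ∀ i w, z i = Sum.inr w → w.1 ∈ l) (x0 : ℕ → X → V) :
    Ext M Q z = itl (fun _ => q) (fun x => M (subs z x)) l x0 := by
  classical
  have hp : l.Perm (l.toFinset.sort (· ≤ ·)) := by
    refine (List.perm_ext_iff_of_nodup hl (Finset.sort_nodup _ _)).2 fun a => ?_
    rw [Finset.mem_sort, List.mem_toFinset]
  rw [hM z l _ hp hl x0]
  exact h.2 r K M z _ (Finset.sortedLT_sort _).pairwise
    (fun i w hw => by rw [Finset.mem_sort, List.mem_toFinset]; exact hz i w hw) x0

/-- permuting the blocks -/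
theorem IsProd.perm (h : IsProd q Q) (hM : Perms M q) (z : Fin r → V ⊕ (Σ _ : ℕ, X))
    (σ : Equiv.Perm ℕ) :
    Ext M Q (Sum.map id (fun w => ⟨σ w.1, w.2⟩) ∘ z) = Ext M Q z := by
  classical
  rcases isEmpty_or_nonempty (X → V) with hV | ⟨⟨x00⟩⟩
  · exact (q.nonempty_of_mem univ_mem |>.elim fun x _ => hV.elim x)
  let l : List ℕ := (Bl z).sort (· ≤ ·)
  have hl : l.Nodup := Finset.sort_nodup _ _
  have hz : ∀ i w, z i = Sum.inr w → w.1 ∈ l := fun i w hw => by
    rw [Finset.mem_sort]; exact mem_bl hw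
  have hl' : (l.map σ).Nodup := hl.map σ.injective
  rw [h.ev hM _ (l.map σ) hl' (fun i w hw => ?_) fun _ => x00, h.ev hM z l hl hz fun _ => x00]
  · have := itl_rename q (fun x => M (subs z x)) σ.injective l fun _ => x00
    refine Eq.trans ?_ this
    congr 1
    funext x
    congr 1
    funext i
    simp only [subs, comp_apply]
    cases z i <;> rfl
  · simp only [comp_apply] at hw
    rcases h4 : z i with a | u
    · rw [h4] at hw; simp at hw
    · rw [h4] at hw
      simp only [Sum.map_inr, Sum.inr.injEq] at hw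
      rw [← hw]
      exact List.mem_map.2 ⟨u.1, hz i u h4, rfl⟩

open Classical in
/-- decoupling of the blocks in `L` -/
theorem IsProd.dec (h : IsProd q Q) (hM : Perms M q) (z : Fin r → V ⊕ (Σ _ : ℕ, X)) (L : Set ℕ) :
    Ext M Q z = lim Q fun w => lim Q fun w' => M (sub z fun u => if u.1 ∈ L then w' u else w u) := by
  rcases isEmpty_or_nonempty (X → V) with hV | ⟨⟨x00⟩⟩
  · exact (q.nonempty_of_mem univ_mem |>.elim fun x _ => hV.elim x)
  rcases isEmpty_or_nonempty V with hV | ⟨⟨a0⟩⟩
  · obtain ⟨w, -⟩ := Q.nonempty_of_mem univ_mem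
    have hX : IsEmpty (Σ _ : ℕ, X) := ⟨fun u => hV.elim (w u)⟩
    have h3 : ∀ w w' : (Σ _ : ℕ, X) → V, w = w' := fun w w' => funext fun u => hX.elim u
    rw [ext_def]
    refine (lim_congr (Eventually.of_forall fun w => ?_)).symm
    refine lim_eq (Eventually.of_forall fun w' => ?_)
    rw [h3 (fun u => if u.1 ∈ L then w' u else w u) w]
  let l1 : List ℕ := ((Bl z).filter (· ∉ L)).sort (· ≤ ·)
  let l2 : List ℕ := ((Bl z).filter (· ∈ L)).sort (· ≤ ·)
  have m1 : ∀ s, s ∈ l1 ↔ s ∈ Bl z ∧ s ∉ L := fun s => by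
    rw [Finset.mem_sort, Finset.mem_filter]
  have m2 : ∀ s, s ∈ l2 ↔ s ∈ Bl z ∧ s ∈ L := fun s => by
    rw [Finset.mem_sort, Finset.mem_filter]
  have hl1 : l1.Pairwise (· < ·) := (Finset.sortedLT_sort _).pairwise
  have hl2 : l2.Nodup := Finset.sort_nodup _ _
  have hl : (l1 ++ l2).Nodup := by
    refine List.Nodup.append (Finset.sort_nodup _ _) hl2 fun s h5 h6 => ?_
    exact ((m1 s).1 h5).2 ((m2 s).1 h6).2
  rw [h.ev hM z (l1 ++ l2) hl (fun i w hw => ?_) fun _ => x00, itl_append]
  · -- the structure given by the inner limit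
    let M' : St r K V := fun v => Ext M Q fun i =>
      Sum.elim Sum.inl (fun w => if w.1 ∈ L then Sum.inr w else Sum.inl (v i)) (z i)
    let z'' : Fin r → V ⊕ (Σ _ : ℕ, X) := fun i =>
      Sum.elim Sum.inl (fun w => if w.1 ∈ L then Sum.inl a0 else Sum.inr w) (z i)
    have e1 := h.2 r K M' z'' l1 hl1 (fun i w hw => ?_) fun _ => x00
    · have e2 : Ext M' Q z'' =
          lim Q fun w => lim Q fun w' => M (sub z fun u => if u.1 ∈ L then w' u else w u) := by
        rw [ext_def]
        refine lim_congr (Eventually.of_forall fun w => ?_)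
        change Ext M Q _ = _
        rw [ext_def]
        refine lim_congr (Eventually.of_forall fun w' => ?_)
        congr 1
        funext i
        simp only [sub, z'']
        rcases z i with a | u
        · rfl
        · by_cases hu : u.1 ∈ L
          · simp [hu]
          · simp [hu]
      rw [← e2, e1]
      refine itl_congr _ _ _ _ fun x hx => ?_
      change _ = Ext M Q _
      rw [h.ev hM _ l2 hl2 (fun i w hw => ?_) x]
      · refine itl_congr _ _ _ _ fun x' hx' => ?_
        congr 1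
        funext i
        simp only [subs, z'']
        rcases h6 : z i with a | u
        · rfl
        · by_cases hu : u.1 ∈ L
          · simp [hu]
          · simp only [hu, if_false, Sum.elim_inr, Sum.elim_inl, id]
            rw [hx' u.1 fun h7 => hu ((m2 _).1 h7).2]
      · rcases h6 : z i with a | u
        · simp only [h6, Sum.elim_inl] at hw; simp at hw
        · by_cases hu : u.1 ∈ L
          · simp only [h6, Sum.elim_inr, hu, if_true, Sum.inr.injEq] at hw
            rw [← hw]
            exact (m2 _).2 ⟨mem_bl h6, hu⟩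
          · simp only [h6, Sum.elim_inr, hu, if_false] at hw; simp at hw
    · simp only [z''] at hw
      rcases h6 : z i with a | u
      · simp only [h6, Sum.elim_inl] at hw; simp at hw
      · by_cases hu : u.1 ∈ L
        · simp only [h6, Sum.elim_inr, hu, if_true] at hw; simp at hw
        · simp only [h6, Sum.elim_inr, hu, if_false, Sum.inr.injEq] at hw
          rw [← hw]
          exact (m1 _).2 ⟨mem_bl h6, hu⟩
  · rw [List.mem_append]
    by_cases hu : w.1 ∈ L
    · exact Or.inr ((m2 _).2 ⟨mem_bl hw, hu⟩)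
    · exact Or.inl ((m1 _).2 ⟨mem_bl hw, hu⟩)

/-- one block -/
theorem IsProd.one (h : IsProd q Q) (z : Fin r → V ⊕ X) (l : ℕ) :
    Ext M Q (Sum.map id (fun x => ⟨l, x⟩) ∘ z) = Ext M q z := by
  classical
  rcases isEmpty_or_nonempty (X → V) with hV | ⟨⟨x00⟩⟩
  · exact (q.nonempty_of_mem univ_mem |>.elim fun x _ => hV.elim x)
  rw [h.2 r K M _ [l] (List.pairwise_singleton _ _) (fun i w hw => ?_) fun _ => x00, itl_cons]
  · refine lim_congr (Eventually.of_forall fun y => ?_)
    rw [itl_nil]
    congr 1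
    funext i
    simp only [subs, sub, comp_apply]
    rcases z i with a | u
    · rfl
    · simp
  · simp only [comp_apply] at hw
    rcases h4 : z i with a | u
    · rw [h4] at hw; simp at hw
    · rw [h4] at hw
      simp only [Sum.map_inr, Sum.inr.injEq] at hw
      rw [← hw]
      simp

end

end Pool.Agent.L7h68.UN
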