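import Pool.Agent.L7h68.UN.Star

set_option autoImplicit false

/-!
# Project UN: construction of the star configuration (part STA)
-/

namespace Pool.Agent.L7h68.UN

open Set Filter Function Pool.Agent.L7h71.UN

variable {r : ℕ} {K V X : Type} [Finite K]

/-- substitution -/
def sN (z : Fin r → V ⊕ ℕ × X) (x : ℕ → X → V) : Fin r → V :=
  fun i => Sum.elim id (fun w => x w.1 w.2) (z i)

/-- the variables outside the block `s` are replaced by the values of `x` -/
def zx (s : ℕ) (x : ℕ → X → V) (z : Fin r → V ⊕ ℕ × X) : Fin r → V ⊕ X := fun i =>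
  Sum.elim Sum.inl (fun w => if w.1 = s then Sum.inr w.2 else Sum.inl (x w.1 w.2)) (z i)

theorem sN_update (inst : DecidableEq ℕ) (z : Fin r → V ⊕ ℕ × X) (x : ℕ → X → V) (s : ℕ)
    (y : X → V) : sN z (@Function.update ℕ (fun _ => X → V) inst x s y) = sub (zx s x z) y := by
  funext i
  simp only [sN, sub, zx]
  rcases z i with a | w
  · rfl
  · by_cases h : w.1 = s
    · subst h
      simp
    · simp [h]

/-- The evaluation of the structure `W` by iterated limits. -/
def Evals (M : St r K V) (E : Ultrafilter (X → V)) (W : St r K (V ⊕ ℕ × X)) : Prop :=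
  ∀ (z : Fin r → V ⊕ ℕ × X) (l : List ℕ), l.Nodup → (∀ i w, z i = Sum.inr w → w.1 ∈ l) →
    ∀ x0 : ℕ → X → V, W z = itl (fun _ => E) (fun x => M (sN z x)) l x0

variable {M : St r K V} {E : Ultrafilter (X → V)} {W : St r K (V ⊕ ℕ × X)}

theorem Evals.inner (h : Evals M E W) (z : Fin r → V ⊕ ℕ × X) (l : List ℕ) (s : ℕ)
    (hl : (l ++ [s]).Nodup) (hz : ∀ i w, z i = Sum.inr w → w.1 ∈ l ++ [s]) (x0 : ℕ → X → V) :
    W z = itl (fun _ => E) (fun x => Ext M E (zx s x z)) l x0 := by
  classical
  rw [h z _ hl hz x0, itl_append]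
  refine itl_congr _ _ _ _ fun x _ => ?_
  rw [itl_cons, ext_def]
  refine lim_congr (Eventually.of_forall fun y => ?_)
  rw [itl_nil, sN_update]

/-- The blocks of a term. -/
def BlN (z : Fin r → V ⊕ ℕ × X) : Finset ℕ :=
  Finset.univ.image fun i => Sum.elim (fun _ => 0) (fun w => w.1) (z i)

theorem mem_blN {z : Fin r → V ⊕ ℕ × X} {i : Fin r} {w : ℕ × X} (h : z i = Sum.inr w) :
    w.1 ∈ BlN z := by
  refine Finset.mem_image.2 ⟨i, Finset.mem_univ _, ?_⟩
  rw [h]
  rfl

/-- a list of all blocks of `z` with the exception of those in `T` -/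
theorem exists_list (z : Fin r → V ⊕ ℕ × X) (T : Finset ℕ) : ∃ l : List ℕ, l.Nodup ∧
    (∀ s ∈ T, s ∉ l) ∧ ∀ i w, z i = Sum.inr w → w.1 ∉ T → w.1 ∈ l := by
  classical
  refine ⟨(BlN z \ T).toList, Finset.nodup_toList _, fun s hs h => ?_, fun i w h h' => ?_⟩
  · rw [Finset.mem_toList, Finset.mem_sdiff] at h
    exact h.2 hs
  · rw [Finset.mem_toList, Finset.mem_sdiff]
    exact ⟨mem_blN h, h'⟩

theorem Evals.rename (h : Evals M E W) [Nonempty (X → V)] (z : Fin r → V ⊕ ℕ × X)
    (σ : Equiv.Perm ℕ) : W (Sum.map id (Prod.map σ id) ∘ z) = W z := by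
  classical
  obtain ⟨x00⟩ : Nonempty (X → V) := inferInstance
  obtain ⟨l, hl, -, hz⟩ := exists_list z ∅
  rw [h _ (l.map σ) (hl.map σ.injective) (fun i w hw => ?_) fun _ => x00,
    h z l hl (fun i w hw => hz i w hw (Finset.notMem_empty _)) fun _ => x00]
  · have := itl_rename E (fun x => M (sN z x)) σ.injective l fun _ => x00
    refine Eq.trans ?_ this
    congr 1
    funext x
    congr 1
    funext i
    simp only [sN, comp_apply]
    rcases z i with a | w <;> rfl
  · simp only [comp_apply] at hw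
    rcases h4 : z i with a | u
    · rw [h4] at hw; simp at hw
    · rw [h4] at hw
      simp only [Sum.map_inr, Sum.inr.injEq] at hw
      rw [← hw]
      exact List.mem_map.2 ⟨u.1, hz i u h4 (Finset.notMem_empty _), rfl⟩

/-- apply `f s` to the block `s`, for `s` in `T` -/
def lpT (T : Finset ℕ) (f : ℕ → X → X) (w : ℕ × X) : ℕ × X :=
  if w.1 ∈ T then (w.1, f w.1 w.2) else w

theorem lpT_mem {T : Finset ℕ} {f : ℕ → X → X} {w : ℕ × X} (h : w.1 ∈ T) :
    lpT T f w = (w.1, f w.1 w.2) := if_pos h

theorem lpT_not {T : Finset ℕ} {f : ℕ → X → X} {w : ℕ × X} (h : w.1 ∉ T) :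
    lpT T f w = w := if_neg h

theorem Evals.blocks (h : Evals M E W) [Nonempty (X → V)] (f : ℕ → X → X)
    (hf : ∀ (s : ℕ) (z : Fin r → V ⊕ X), Ext M E (Sum.map id (f s) ∘ z) = Ext M E z)
    (T : Finset ℕ) (z : Fin r → V ⊕ ℕ × X) : W (Sum.map id (lpT T f) ∘ z) = W z := by
  classical
  obtain ⟨x00⟩ : Nonempty (X → V) := inferInstance
  induction T using Finset.induction_on with
  | empty =>
    congr 1
    funext i
    simp only [comp_apply]
    rcases z i with a | w
    · rfl
    · simp [lpT]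
  | insert s T hs ih =>
    rw [← ih]
    obtain ⟨l, hl, hl', hz⟩ := exists_list z {s}
    have hl2 : (l ++ [s]).Nodup :=
      List.Nodup.append hl (List.nodup_singleton _) (by
        rw [List.disjoint_singleton]
        exact hl' s (Finset.mem_singleton_self s))
    have hz2 : ∀ i w, z i = Sum.inr w → w.1 ∈ l ++ [s] := fun i w hw => by
      rw [List.mem_append, List.mem_singleton]
      by_cases h3 : w.1 = s
      · exact Or.inr h3
      · exact Or.inl (hz i w hw (by rwa [Finset.mem_singleton]))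
    have hz3 : ∀ (T' : Finset ℕ) i w, (Sum.map id (lpT T' f) ∘ z) i = Sum.inr w →
        w.1 ∈ l ++ [s] := fun T' i w hw => by
      simp only [comp_apply] at hw
      rcases h4 : z i with a | u
      · rw [h4] at hw; simp at hw
      · rw [h4] at hw
        simp only [Sum.map_inr, Sum.inr.injEq] at hw
        rw [← hw]
        have : (lpT T' f u).1 = u.1 := by
          unfold lpT
          split_ifs <;> rfl
        rw [this]
        exact hz2 i u h4
    rw [h.inner _ l s hl2 (hz3 _) fun _ => x00, h.inner _ l s hl2 (hz3 _) fun _ => x00]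
    refine itl_congr _ _ _ _ fun x _ => ?_
    rw [← hf s (zx s x (Sum.map id (lpT T f) ∘ z))]
    congr 1
    funext i
    simp only [zx, comp_apply]
    rcases z i with a | w
    · rfl
    · simp only [Sum.map_inr, Sum.elim_inr]
      by_cases h5 : w.1 = s
      · rw [lpT_mem (by rw [h5]; exact Finset.mem_insert_self s T), lpT_not (by rw [h5]; exact hs)]
        simp [h5]
      · by_cases h6 : w.1 ∈ T
        · rw [lpT_mem (Finset.mem_insert_of_mem h6), lpT_mem h6]
          simp [h5]
        · rw [lpT_not (by rw [Finset.mem_insert, not_or]; exact ⟨h5, h6⟩), lpT_not h6]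
          simp [h5]

end Pool.Agent.L7h68.UN
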