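import Pool.Agent.L7h68.UN.Prod

set_option autoImplicit false

/-!
# Project UN: the type of a star
-/

namespace Pool.Agent.L7h68.UN

open Set Filter Function Pool.Agent.L7h71.UN

variable {V J ι κ : Type}

/-- centre `g`, leaves `w` -/
def Phi (g : ι → V) (w : (Σ _ : ℕ, κ) → V) : ι ⊕ ℕ × κ → V := Sum.elim g fun u => w ⟨u.1, u.2⟩

/-- the type of a star -/
noncomputable def EE (U : Ultrafilter J) (g : J → ι → V)
    (Θ : J → Ultrafilter ((Σ _ : ℕ, κ) → V)) : Ultrafilter (ι ⊕ ℕ × κ → V) :=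
  U.bind fun j => (Θ j).map (Phi (g j))

theorem lim_EE {K : Type} [Finite K] (U : Ultrafilter J) (g : J → ι → V)
    (Θ : J → Ultrafilter ((Σ _ : ℕ, κ) → V)) (f : (ι ⊕ ℕ × κ → V) → K) :
    lim (EE U g Θ) f = lim U fun j => lim (Θ j) fun w => f (Phi (g j) w) := by
  rw [EE, lim_bind]
  exact lim_congr (Eventually.of_forall fun j => lim_map _ _ _)

theorem eventually_bind_map {A B : Type} (U : Ultrafilter J) (Θ : J → Ultrafilter A)
    (F : J → A → B) {p : B → Prop} :
    (∀ᶠ x in ((U.bind fun j => (Θ j).map (F j) : Ultrafilter B) : Filter B), p x) ↔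
      ∀ᶠ j in U, ∀ᶠ w in Θ j, p (F j w) := by
  change (∀ᶠ x in Filter.bind (U : Filter J) (fun j => ((Θ j).map (F j) : Filter B)), p x) ↔ _
  rw [eventually_bind]
  exact Iff.rfl

theorem eventually_EE (U : Ultrafilter J) (g : J → ι → V)
    (Θ : J → Ultrafilter ((Σ _ : ℕ, κ) → V)) {p : (ι ⊕ ℕ × κ → V) → Prop}
    (h : ∀ᶠ j in U, ∀ᶠ w in Θ j, p (Phi (g j) w)) : ∀ᶠ x in EE U g Θ, p x :=
  (eventually_bind_map U Θ fun j => Phi (g j)).2 h

theorem free_EE {U : Ultrafilter J} {g : J → ι → V}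
    {Θ : J → Ultrafilter ((Σ _ : ℕ, κ) → V)} (hg : Free (U.map g)) (hΘ : ∀ j, Free (Θ j)) :
    Free (EE U g Θ) := by
  refine ⟨fun v a => eventually_EE U g Θ ?_, fun v v' hv => eventually_EE U g Θ ?_⟩
  · rcases v with i | u
    · have := hg.1 i a
      rw [Ultrafilter.coe_map, eventually_map] at this
      exact this.mono fun j hj => Eventually.of_forall fun w => hj
    · exact Eventually.of_forall fun j => (hΘ j).1 ⟨u.1, u.2⟩ a
  · rcases v with i | u <;> rcases v' with i' | u'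
    · have := hg.2 i i' fun h => hv (by rw [h])
      rw [Ultrafilter.coe_map, eventually_map] at this
      exact this.mono fun j hj => Eventually.of_forall fun w => hj
    · exact Eventually.of_forall fun j => ((hΘ j).1 ⟨u'.1, u'.2⟩ (g j i)).mono fun w hw h => hw h.symm
    · exact Eventually.of_forall fun j => ((hΘ j).1 ⟨u.1, u.2⟩ (g j i')).mono fun w hw h => hw h
    · refine Eventually.of_forall fun j => (hΘ j).2 ⟨u.1, u.2⟩ ⟨u'.1, u'.2⟩ fun h => hv ?_
      have h1 : u.1 = u'.1 := congrArg Sigma.fst h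
      have h2 : u.2 = u'.2 := eq_of_heq (Sigma.mk.inj h).2
      rw [show u = u' from Prod.ext h1 h2]

section

variable {r : ℕ} {K : Type} [Finite K] {M : St r K V}

/-- The centre is replaced by points. -/
def zT (g : ι → V) (z : Fin r → V ⊕ (ι ⊕ ℕ × κ)) : Fin r → V ⊕ (Σ _ : ℕ, κ) := fun i =>
  Sum.elim Sum.inl (Sum.elim (fun i' => Sum.inl (g i')) fun u => Sum.inr ⟨u.1, u.2⟩) (z i)

theorem sub_phi (g : ι → V) (z : Fin r → V ⊕ (ι ⊕ ℕ × κ)) (w : (Σ _ : ℕ, κ) → V) :
    sub z (Phi g w) = sub (zT g z) w := by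
  funext i
  simp only [sub, zT, Phi]
  rcases z i with a | (i' | u) <;> rfl

theorem ext_EE (U : Ultrafilter J) (g : J → ι → V) (Θ : J → Ultrafilter ((Σ _ : ℕ, κ) → V))
    (z : Fin r → V ⊕ (ι ⊕ ℕ × κ)) :
    Ext M (EE U g Θ) z = lim U fun j => Ext M (Θ j) (zT (g j) z) := by
  rw [ext_def, lim_EE]
  refine lim_congr (Eventually.of_forall fun j => ?_)
  rw [ext_def]
  exact lim_congr (Eventually.of_forall fun w => by rw [sub_phi])

theorem perm_EE {U : Ultrafilter J} {g : J → ι → V} {Θ : J → Ultrafilter ((Σ _ : ℕ, κ) → V)}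
    {θ : J → Ultrafilter (κ → V)} (hP : ∀ j, IsProd (θ j) (Θ j)) (hM : ∀ j, Perms M (θ j))
    (z : Fin r → V ⊕ (ι ⊕ ℕ × κ)) (π : Equiv.Perm ℕ) :
    Ext M (EE U g Θ) (Sum.map id (Sum.map id fun u => (π u.1, u.2)) ∘ z) = Ext M (EE U g Θ) z := by
  rw [ext_EE, ext_EE]
  refine lim_congr (Eventually.of_forall fun j => ?_)
  rw [← (hP j).perm (hM j) (zT (g j) z) π]
  congr 1
  funext i
  simp only [zT, comp_apply]
  rcases z i with a | (i' | u) <;> rfl

open Classical in
/-- coordinates of the leaves with numbers in `L` from `y'`, the others from `y` -/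
noncomputable def mix (L : Set ℕ) (y y' : ι ⊕ ℕ × κ → V) : ι ⊕ ℕ × κ → V := fun v =>
  Sum.elim (fun i => y (Sum.inl i)) (fun u => if u.1 ∈ L then y' (Sum.inr u) else y (Sum.inr u)) v

theorem dec_EE (hstar : Star r K (Nat.card ι + Nat.card κ)) [Countable V] [Infinite V] [Finite ι]
    [Finite κ] (hfew : ¬ Many M) {U : Ultrafilter J} {g : J → ι → V}
    {Θ : J → Ultrafilter ((Σ _ : ℕ, κ) → V)} (hg : Free (U.map g)) (hΘ : ∀ j, Free (Θ j))
    {θ : J → Ultrafilter (κ → V)} (hP : ∀ j, IsProd (θ j) (Θ j)) (hM : ∀ j, Perms M (θ j))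
    (z : Fin r → V ⊕ (ι ⊕ ℕ × κ)) (L : Set ℕ)
    (hz : {v | ∃ i, z i = Sum.inr v}.ncard < Nat.card ι + Nat.card κ) :
    Ext M (EE U g Θ) z = lim (EE U g Θ) fun y => lim (EE U g Θ) fun y' => M (sub z (mix L y y')) := by
  classical
  -- the moved variables
  let Mv : Set (ι ⊕ ℕ × κ) := {v | ∃ u : ℕ × κ, v = Sum.inr u ∧ u.1 ∈ L}
  have hfin : {v | ∃ i, z i = Sum.inr v}.Finite := by
    refine ((Set.finite_range z).preimage (f := Sum.inr) Sum.inr_injective.injOn).subset ?_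
    rintro v ⟨i, hi⟩
    exact ⟨i, hi⟩
  let ι' : Type := {v : ι ⊕ ℕ × κ // v ∉ Mv ∧ ∃ i, z i = Sum.inr v}
  let κ' : Type := {v : ι ⊕ ℕ × κ // v ∈ Mv ∧ ∃ i, z i = Sum.inr v}
  haveI : Finite ι' := (hfin.subset (fun v hv => hv.2) : {v | v ∉ Mv ∧ ∃ i, z i = Sum.inr v}.Finite)
  haveI : Finite κ' := (hfin.subset (fun v hv => hv.2) : {v | v ∈ Mv ∧ ∃ i, z i = Sum.inr v}.Finite)
  have hcard : Nat.card ι' + Nat.card κ' < Nat.card ι + Nat.card κ := by
    have h1 : Nat.card ι' = ({v | ∃ i, z i = Sum.inr v} \ Mv).ncard := by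
      rw [← Nat.card_coe_set_eq]
      exact Nat.card_congr (Equiv.subtypeEquivRight fun v => ⟨fun h => ⟨h.2, h.1⟩, fun h => ⟨h.2, h.1⟩⟩)
    have h2 : Nat.card κ' = ({v | ∃ i, z i = Sum.inr v} ∩ Mv).ncard := by
      rw [← Nat.card_coe_set_eq]
      exact Nat.card_congr (Equiv.subtypeEquivRight fun v => ⟨fun h => ⟨h.2, h.1⟩, fun h => ⟨h.2, h.1⟩⟩)
    have h3 := Set.ncard_inter_add_ncard_diff_eq_ncard {v | ∃ i, z i = Sum.inr v} Mv hfin
    omega
  have hτ : ∀ i, ∃ t : V ⊕ (ι' ⊕ κ'), ∀ y y' : ι ⊕ ℕ × κ → V,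
      Sum.elim id (mix L y y') (z i) =
        Sum.elim id (Sum.elim (fun v : ι' => y v.1) fun v : κ' => y' v.1) t := by
    intro i
    rcases hi : z i with a | v
    · exact ⟨Sum.inl a, fun y y' => rfl⟩
    · by_cases hv : v ∈ Mv
      · refine ⟨Sum.inr (Sum.inr ⟨v, hv, i, hi⟩), fun y y' => ?_⟩
        obtain ⟨u, rfl, hu⟩ := hv
        simp [mix, hu]
      · refine ⟨Sum.inr (Sum.inl ⟨v, hv, i, hi⟩), fun y y' => ?_⟩
        rcases v with i' | u
        · simp [mix]
        · have hu : u.1 ∉ L := fun h => hv ⟨u, rfl, h⟩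
          simp [mix, hu]
  choose τ hτ using hτ
  have hτ' : ∀ y y', sub z (mix L y y') =
      sub τ (Sum.elim (fun v : ι' => y v.1) fun v : κ' => y' v.1) := fun y y' => by
    funext i
    exact hτ i y y'
  -- the family
  let U' : Ultrafilter (J × ((Σ _ : ℕ, κ) → V)) := U.bind fun j => (Θ j).map fun w => (j, w)
  have limU' : ∀ f : J × ((Σ _ : ℕ, κ) → V) → K,
      lim U' f = lim U fun j => lim (Θ j) fun w => f (j, w) := fun f => by
    change lim (U.bind _) f = _
    rw [lim_bind]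
    exact lim_congr (Eventually.of_forall fun j => lim_map _ _ _)
  let g' : J × ((Σ _ : ℕ, κ) → V) → ι' → V := fun k v => Phi (g k.1) k.2 v.1
  let θ' : J × ((Σ _ : ℕ, κ) → V) → Ultrafilter (κ' → V) := fun k =>
    (Θ k.1).map fun w' (v : κ') => Phi (g k.1) w' v.1
  have hg' : Free (U'.map g') := by
    have hE := free_EE hg hΘ
    refine ⟨fun v a => ?_, fun v v' hv => ?_⟩
    · rw [Ultrafilter.coe_map, eventually_map]
      exact (eventually_bind_map U Θ fun j w => (j, w)).2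
        ((eventually_bind_map U Θ fun j => Phi (g j)).1 (hE.1 v.1 a))
    · rw [Ultrafilter.coe_map, eventually_map]
      exact (eventually_bind_map U Θ fun j w => (j, w)).2
        ((eventually_bind_map U Θ fun j => Phi (g j)).1
          (hE.2 v.1 v'.1 fun h => hv (Subtype.ext h)))
  have hθ' : ∀ k, Free (θ' k) := fun k => by
    have hφ : ∀ v : κ', ∃ u : ℕ × κ, v.1 = Sum.inr u := fun v => by
      obtain ⟨u, hu, -⟩ := v.2.1
      exact ⟨u, hu⟩
    choose φ hφ using hφ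
    have h1 : θ' k = (Θ k.1).map fun w' => w' ∘ fun v : κ' => ⟨(φ v).1, (φ v).2⟩ := by
      have : (fun (w' : (Σ _ : ℕ, κ) → V) (v : κ') => Phi (g k.1) w' v.1) =
          fun w' => w' ∘ fun v : κ' => ⟨(φ v).1, (φ v).2⟩ := by
        funext w' v
        rw [hφ v]
        rfl
      change (Θ k.1).map _ = _
      rw [this]
    rw [h1]
    refine (hΘ k.1).map fun v v' h => ?_
    have h2 : (φ v).1 = (φ v').1 := congrArg Sigma.fst h
    have h3 : (φ v).2 = (φ v').2 := eq_of_heq (Sigma.mk.inj h).2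
    apply Subtype.ext
    rw [hφ v, hφ v', Prod.ext h2 h3]
  have key := hstar V M hfew _ ι' κ' hcard U' g' θ' hg' hθ' τ
  -- the left side
  have hL : Ext M (EE U g Θ) z =
      lim U' (fun k => lim (θ' k) fun y => M (sub τ (Sum.elim (g' k) y))) := by
    rw [limU', ext_EE]
    refine lim_congr (Eventually.of_forall fun j => ?_)
    rw [(hP j).dec (hM j) _ L]
    refine lim_congr (Eventually.of_forall fun w => ?_)
    change _ = lim ((Θ j).map _) _
    rw [lim_map]
    refine lim_congr (Eventually.of_forall fun w' => ?_)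
    rw [← hτ' (Phi (g j) w) (Phi (g j) w')]
    congr 1
    funext i
    simp only [sub, zT, mix, Phi]
    rcases z i with a | (i' | u)
    · rfl
    · rfl
    · simp only [Sum.elim_inr, id]
      rfl
  have hR : lim (EE U g Θ) (fun y => lim (EE U g Θ) fun y' => M (sub z (mix L y y'))) =
      lim U' fun j => lim U' fun k => lim (θ' k) fun y => M (sub τ (Sum.elim (g' j) y)) := by
    rw [lim_EE, limU']
    refine lim_congr (Eventually.of_forall fun j => ?_)
    refine lim_congr (Eventually.of_forall fun w => ?_)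
    rw [lim_EE, limU']
    refine lim_congr (Eventually.of_forall fun k => ?_)
    have e3 : ∀ w2 : (Σ _ : ℕ, κ) → V,
        lim (θ' (k, w2)) (fun y => M (sub τ (Sum.elim (g' (j, w)) y))) =
        lim (Θ k) fun w' => M (sub z (mix L (Phi (g j) w) (Phi (g k) w'))) := fun w2 => by
      change lim ((Θ k).map _) _ = _
      rw [lim_map]
      refine lim_congr (Eventually.of_forall fun w' => ?_)
      rw [hτ' (Phi (g j) w) (Phi (g k) w')]
    simp only [e3]
    rw [lim_const]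
  rw [hL, key, hR]

end

end Pool.Agent.L7h68.UN
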